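import Mathlib
import Pool.Agent.Y59.RD.Fin2

set_option autoImplicit false

/-!
# Rice's theorem for diagram groups

For all diagram groups `G`, `H` of finite semigroup presentations there is one finite semigroup
presentation `(k, F)` such that for all recursively enumerable predicates `p`, `q` on `ℕ` there is
a computable sequence of base words `W n` with `D(F, W n) ≅ (G if p n, else 1) × (H if q n, else 1)`.
Consequences: the base words whose diagram group is isomorphic to `G` and those whose diagram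
group is isomorphic to `H` cannot be separated by an algorithm; every isomorphism invariant
property which holds for some and fails for some diagram group is undecidable, already on the base
words over one finite presentation; in particular the triviality problem is undecidable for a
fixed presentation.
-/

namespace Pool.Agent.Results.MP_6c430b_al.RiceTheorem

open Pool.Agent.H476R3.Diag Pool.Agent.Y59.RD

/-- An input: the size `k` of the alphabet `{0, ..., k-1}`, the finite list of the relations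
`u = v` (as pairs of words), and a word `w`. -/
abbrev Input : Type := ℕ × List (List ℕ × List ℕ) × List ℕ

/-- The input is a finite semigroup presentation together with a nonempty word: the two sides of
each relation are nonempty words over `{0, ..., k-1}`, and so is `w`. -/
def WellFormed (I : Input) : Prop :=
  (∀ r ∈ I.2.1, r.1 ≠ [] ∧ r.2 ≠ [] ∧ (∀ x ∈ r.1, x < I.1) ∧ (∀ x ∈ r.2, x < I.1)) ∧
    I.2.2 ≠ [] ∧ ∀ x ∈ I.2.2, x < I.1

/-- The diagram group `D(P, w)` of an input. -/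
abbrev Dg (I : Input) : Type := DiagramGroup {r | r ∈ I.2.1} I.2.2

theorem construction (G H : Input) (hG : WellFormed G) (hH : WellFormed H) :
    ∃ (k : ℕ) (F : List (List ℕ × List ℕ)),
      ∀ p q : ℕ → Prop, REPred p → REPred q →
        ∃ W : ℕ → List ℕ, Computable W ∧ (∀ n, WellFormed (k, F, W n)) ∧
          ∀ n, (p n → q n → Nonempty (Dg (k, F, W n) ≃* Dg G × Dg H)) ∧
            (p n → ¬ q n → Nonempty (Dg (k, F, W n) ≃* Dg G)) ∧
            (¬ p n → q n → Nonempty (Dg (k, F, W n) ≃* Dg H)) ∧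
            (¬ p n → ¬ q n → Subsingleton (Dg (k, F, W n))) := by
  obtain ⟨k1, F1, w1⟩ := G
  obtain ⟨k2, F2, w2⟩ := H
  obtain ⟨g1, g2, g3⟩ := hG
  obtain ⟨h1, h2, h3⟩ := hH
  obtain ⟨K, F, a1, a2⟩ := main2 k1 F1 w1 g1 g3 k2 F2 w2 h1 h3
  refine ⟨K, F, fun p q hp hq => ?_⟩
  obtain ⟨W, b1, b2, b3⟩ := a2 p q hp hq
  refine ⟨W, b1, fun n => ⟨a1, (b2 n).1, (b2 n).2⟩, fun n => ?_⟩
  obtain ⟨G', H', i1, i2, ⟨e⟩, c1, c2, c3, c4⟩ := b3 n
  refine ⟨fun hp hq => ?_, fun hp hq => ?_, fun hp hq => ?_, fun hp hq => ?_⟩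
  · obtain ⟨e1⟩ := c1 hp
    obtain ⟨e2⟩ := c3 hq
    exact ⟨e.trans (MulEquiv.prodCongr e1 e2)⟩
  · obtain ⟨e1⟩ := c1 hp
    have := c4 hq
    let _ : Unique H' := uniqueOfSubsingleton 1
    exact ⟨(e.trans MulEquiv.prodUnique).trans e1⟩
  · obtain ⟨e2⟩ := c3 hq
    have := c2 hp
    let _ : Unique G' := uniqueOfSubsingleton 1
    exact ⟨(e.trans MulEquiv.uniqueProd).trans e2⟩
  · have := c2 hp
    have := c4 hq
    exact e.toEquiv.subsingleton

theorem inseparable (G H : Input) (hG : WellFormed G) (hH : WellFormed H) :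
    ∃ (k : ℕ) (F : List (List ℕ × List ℕ)),
      ¬ ∃ f : List ℕ → Bool, Computable f ∧ ∀ w, WellFormed (k, F, w) →
        (Nonempty (Dg (k, F, w) ≃* Dg G) → f w = true) ∧
        (Nonempty (Dg (k, F, w) ≃* Dg H) → f w = false) := by
  obtain ⟨k, F, h⟩ := construction G H hG hH
  refine ⟨k, F, ?_⟩
  rintro ⟨f, hf, hfw⟩
  obtain ⟨p, q, hp, hq, hpq, hns⟩ := insep
  obtain ⟨W, b1, b2, b3⟩ := h p q hp hq
  refine hns ⟨fun n => f (W n), hf.comp b1, fun n => ⟨fun h1 => ?_, fun h1 => ?_⟩⟩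
  · exact (hfw (W n) (b2 n)).1 ((b3 n).2.1 h1 (hpq n h1))
  · exact (hfw (W n) (b2 n)).2 ((b3 n).2.2.1 (fun h2 => hpq n h2 h1) h1)

theorem rice (P : (G : Type) → [Group G] → Prop)
    (hP : ∀ (G H : Type) [Group G] [Group H], Nonempty (G ≃* H) → P G → P H)
    (hy : ∃ I, WellFormed I ∧ P (Dg I)) (hn : ∃ I, WellFormed I ∧ ¬ P (Dg I)) :
    ∃ (k : ℕ) (F : List (List ℕ × List ℕ)), ¬ ∃ f : List ℕ → Bool, Computable f ∧
      ∀ w, WellFormed (k, F, w) → (f w = true ↔ P (Dg (k, F, w))) := by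
  obtain ⟨G, hG, hPG⟩ := hy
  obtain ⟨H, hH, hPH⟩ := hn
  obtain ⟨k, F, h⟩ := inseparable G H hG hH
  refine ⟨k, F, ?_⟩
  rintro ⟨f, hf, hfw⟩
  refine h ⟨f, hf, fun w hw => ⟨fun h1 => ?_, fun h1 => ?_⟩⟩
  · obtain ⟨e⟩ := h1
    exact (hfw w hw).2 (hP _ _ ⟨e.symm⟩ hPG)
  · have h2 : ¬ P (Dg (k, F, w)) := fun h3 => hPH (hP _ _ h1 h3)
    have h3 := (hfw w hw).not.2 h2
    simpa using h3

/-- The trivial group is a diagram group. -/
theorem triv : WellFormed (1, [], [0]) ∧ Subsingleton (Dg (1, [], [0])) := by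
  refine ⟨⟨by simp, by simp, by simp⟩, ⟨fun x y => ?_⟩⟩
  obtain ⟨⟨L, hL⟩, rfl⟩ := DiagramGroup.exists_rep x
  obtain ⟨⟨L', hL'⟩, rfl⟩ := DiagramGroup.exists_rep y
  have key : ∀ L : List (Edge ℕ), IsPath {r | r ∈ ([] : List (List ℕ × List ℕ))} [0] L [0] →
      L = [] := by
    intro L hL
    cases L with
    | nil => rfl
    | cons e L => exact absurd hL.1 (by simp)
  have e1 := key L hL
  have e2 := key L' hL'
  subst e1
  subst e2
  rfl

/-- A nontrivial diagram group. -/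
theorem nontriv : WellFormed (3, [([0], [1]), ([1], [2]), ([2], [0])], [0]) ∧
    Nontrivial (Dg (3, [([0], [1]), ([1], [2]), ([2], [0])], [0])) := by
  refine ⟨⟨by simp, by simp, by simp⟩, ?_⟩
  refine nontrivial_of_cycle (Z := [⟨[], ([0], [1]), [], true⟩, ⟨[], ([1], [2]), [], true⟩,
    ⟨[], ([2], [0]), [], true⟩]) ⟨?_, by simp⟩ (by simp)
  refine ⟨by simp, rfl, ⟨by simp, rfl, ⟨by simp, rfl, rfl⟩⟩⟩

theorem fixed : ∃ (k : ℕ) (F : List (List ℕ × List ℕ)), ¬ ∃ f : List ℕ → Bool, Computable f ∧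
    ∀ w, WellFormed (k, F, w) → (f w = true ↔ Nontrivial (Dg (k, F, w))) := by
  refine rice (fun G _ => Nontrivial G) ?_ ⟨_, nontriv.1, nontriv.2⟩ ⟨_, triv.1, ?_⟩
  · intro G H _ _ h1 h2
    obtain ⟨e⟩ := h1
    exact e.symm.toEquiv.nontrivial
  · have := triv.2
    exact not_nontrivial _

/-- **Rice's theorem for diagram groups** and its consequences. -/
theorem result :
    (∀ G H : Input, WellFormed G → WellFormed H → ∃ (k : ℕ) (F : List (List ℕ × List ℕ)),
      ∀ p q : ℕ → Prop, REPred p → REPred q →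
        ∃ W : ℕ → List ℕ, Computable W ∧ (∀ n, WellFormed (k, F, W n)) ∧
          ∀ n, (p n → q n → Nonempty (Dg (k, F, W n) ≃* Dg G × Dg H)) ∧
            (p n → ¬ q n → Nonempty (Dg (k, F, W n) ≃* Dg G)) ∧
            (¬ p n → q n → Nonempty (Dg (k, F, W n) ≃* Dg H)) ∧
            (¬ p n → ¬ q n → Subsingleton (Dg (k, F, W n)))) ∧
    (∀ G H : Input, WellFormed G → WellFormed H → ∃ (k : ℕ) (F : List (List ℕ × List ℕ)),
      ¬ ∃ f : List ℕ → Bool, Computable f ∧ ∀ w, WellFormed (k, F, w) →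
        (Nonempty (Dg (k, F, w) ≃* Dg G) → f w = true) ∧
        (Nonempty (Dg (k, F, w) ≃* Dg H) → f w = false)) ∧
    (∀ P : (G : Type) → [Group G] → Prop,
      (∀ (G H : Type) [Group G] [Group H], Nonempty (G ≃* H) → P G → P H) →
      (∃ I, WellFormed I ∧ P (Dg I)) → (∃ I, WellFormed I ∧ ¬ P (Dg I)) →
      ∃ (k : ℕ) (F : List (List ℕ × List ℕ)), ¬ ∃ f : List ℕ → Bool, Computable f ∧
        ∀ w, WellFormed (k, F, w) → (f w = true ↔ P (Dg (k, F, w)))) ∧
    (∃ (k : ℕ) (F : List (List ℕ × List ℕ)), ¬ ∃ f : List ℕ → Bool, Computable f ∧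
      ∀ w, WellFormed (k, F, w) → (f w = true ↔ Nontrivial (Dg (k, F, w)))) ∧
    ¬ ∃ f : Input → Bool, Computable f ∧
      ∀ I : Input, WellFormed I → (f I = true ↔ Nontrivial (Dg I)) := by
  refine ⟨construction, inseparable, rice, fixed, ?_⟩
  rintro ⟨f, hf, hfI⟩
  obtain ⟨k, F, h⟩ := fixed
  refine h ⟨fun w => f (k, F, w), ?_, fun w hw => hfI (k, F, w) hw⟩
  exact hf.comp (Computable.pair (Computable.const k)
    (Computable.pair (Computable.const F) Computable.id))

end Pool.Agent.Results.MP_6c430b_al.RiceTheorem
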